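import Pool.Agent.Q294.Tipsy.Mono

/-!
# MP_037b14: a tipsy cop may need non-monotone sober moves

Counterexample: the integers with additional edges between consecutive multiples of five, parameters
`c = 1/10`, `r = 19/400`, `t_c = 341/400`, `t_r = 0`, cop at `0`, robber at `5`.

On the detour of length five between two consecutive multiples of five the harmonic coordinate
`u/5` increases with every step, but the step from `5k+1` to `5k+2` increases the distance to a
robber far ahead. A cop who makes this step has larger mean speed than the robber, a cop who never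
makes it has smaller mean speed.
-/

open Filter Topology

namespace Pool.Agent.Results.MP_037b14_pr.NonMonotoneNeeded

open Q294.Tipsy

/-- There are a connected locally finite graph, parameters and a starting position for which some
cop strategy is winning but no monotone cop strategy is winning. -/
theorem result : ∃ (V : Type) (_ : DecidableEq V) (G : SimpleGraph V) (_ : G.LocallyFinite)
    (c r tc tr : ℝ) (C₀ R₀ : V), G.Connected ∧
      0 ≤ c ∧ 0 ≤ r ∧ 0 ≤ tc ∧ 0 ≤ tr ∧ c + r + tc + tr = 1 ∧
      (∃ σ, IsCop G σ ∧ IsWinning G c r tc tr C₀ R₀ σ) ∧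
      ¬ ∃ σ, IsCop G σ ∧ IsMonotone G σ ∧ IsWinning G c r tc tr C₀ R₀ σ := by
  refine ⟨ℤ, inferInstance, Gr, inferInstance, 1 / 10, 19 / 400, 341 / 400, 0, 0, 5,
    connected_Gr, by norm_num, by norm_num, by norm_num, le_rfl, by norm_num, ?_, ?_⟩
  · exact ⟨fun _ => cop, fun _ => cop_adj, winning 0 5⟩
  · rintro ⟨σ, hσ, hmon, hwin⟩
    exact mono_loses hσ hmon hwin

end Pool.Agent.Results.MP_037b14_pr.NonMonotoneNeeded
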